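import Pool.Agent.Lib.MP_0e3b4a_gt.Iface

/-! # Modules NILP, KAPPA: the graded algebra -/

set_option autoImplicit false

namespace Pool.Agent.CutLoci.H70

open MeasureTheory Set Filter Topology
open Pool.Agent.CutLoci

section

variable {g : Type} [NormedAddCommGroup g] [NormedSpace ℝ g] {r : ℕ}

/-- The lower filtration. -/
def FF (C : Carnot g r) (k : ℕ) : Submodule ℝ g := ⨆ j : {j : ℕ // k ≤ j}, C.V j

theorem mem_FF (C : Carnot g r) {k j : ℕ} (h : k ≤ j) {x : g} (hx : x ∈ C.V j) :
    x ∈ FF C k := (le_iSup (fun j : {j : ℕ // k ≤ j} => C.V j) ⟨j, h⟩) hx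

theorem FF_anti (C : Carnot g r) {k l : ℕ} (h : k ≤ l) : FF C l ≤ FF C k :=
  iSup_le fun j => fun _ hx => mem_FF C (h.trans j.2) hx

theorem FF_top (C : Carnot g r) : FF C (C.s + 1) = ⊥ := by
  rw [FF, iSup_eq_bot]
  intro j
  exact C.V_big _ (by have := j.2; omega)

theorem FF_one (C : Carnot g r) (x : g) : x ∈ FF C 1 := by
  have h1 : (⊤ : Submodule ℝ g) ≤ FF C 1 := by
    rw [← C.V_top]
    refine iSup_le fun j => ?_
    rcases Nat.eq_zero_or_pos j with h | h
    · rw [h, C.V_zero]; exact bot_le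
    · exact fun _ hx => mem_FF C h hx
  exact h1 trivial

theorem FF_D (C : Carnot g r) {k : ℕ} {x : g} (hx : x ∈ FF C k) : C.D x ∈ FF C k := by
  induction hx using Submodule.iSup_induction' with
  | mem i z hz =>
    rw [C.D_V _ z hz]
    exact mem_FF C i.2 (Submodule.smul_mem _ _ hz)
  | zero => rw [map_zero]; exact Submodule.zero_mem _
  | add a b _ _ ha hb => rw [map_add]; exact Submodule.add_mem _ ha hb

theorem FF_br (C : Carnot g r) (hG : ∀ i j, ∀ x ∈ C.V i, ∀ y ∈ C.V j, C.br x y ∈ C.V (i + j))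
    {k l : ℕ} {x y : g} (hx : x ∈ FF C k) (hy : y ∈ FF C l) :
    C.br x y ∈ FF C (k + l) := by
  induction hx using Submodule.iSup_induction' with
  | mem i z hz =>
    induction hy using Submodule.iSup_induction' with
    | mem j w hw =>
      exact mem_FF C (add_le_add i.2 j.2) (hG _ _ z hz w hw)
    | zero => rw [map_zero]; exact Submodule.zero_mem _
    | add a b _ _ ha hb => rw [map_add]; exact Submodule.add_mem _ ha hb
  | zero => rw [map_zero]; exact Submodule.zero_mem _
  | add a b _ _ ha hb => rw [map_add]; exact Submodule.add_mem _ ha hb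

theorem FF_split (C : Carnot g r) {k : ℕ} {x : g} (hx : x ∈ FF C k) :
    ∃ a ∈ C.V k, ∃ b ∈ FF C (k + 1), x = a + b := by
  induction hx using Submodule.iSup_induction' with
  | mem i z hz =>
    by_cases h : (i : ℕ) = k
    · exact ⟨z, h ▸ hz, 0, Submodule.zero_mem _, (add_zero z).symm⟩
    · refine ⟨0, Submodule.zero_mem _, z, mem_FF C ?_ hz, (zero_add z).symm⟩
      have := i.2
      omega
  | zero => exact ⟨0, Submodule.zero_mem _, 0, Submodule.zero_mem _, (add_zero 0).symm⟩
  | add a b _ _ ha hb =>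
    obtain ⟨a1, ha1, a2, ha2, rfl⟩ := ha
    obtain ⟨b1, hb1, b2, hb2, rfl⟩ := hb
    exact ⟨a1 + b1, Submodule.add_mem _ ha1 hb1, a2 + b2, Submodule.add_mem _ ha2 hb2,
      add_add_add_comm _ _ _ _⟩

end

section

variable {g : Type} [NormedAddCommGroup g] [NormedSpace ℝ g] [FiniteDimensional ℝ g] {r : ℕ}

theorem prod_mem (C : Carnot g r)
    (hG : ∀ i j, ∀ x ∈ C.V i, ∀ y ∈ C.V j, C.br x y ∈ C.V (i + j)) (l : List g) (hl : l ≠ [])
    (p : g × ℝ) : ((l.map C.rep).prod p).1 ∈ FF C l.length ∧ ((l.map C.rep).prod p).2 = 0 := by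
  induction l with
  | nil => exact absurd rfl hl
  | cons x t ih =>
    rw [List.map_cons, List.prod_cons]
    change (C.rep x ((t.map C.rep).prod p)).1 ∈ _ ∧ (C.rep x ((t.map C.rep).prod p)).2 = 0
    rw [Carnot.rep_apply]
    refine ⟨?_, rfl⟩
    by_cases ht : t = []
    · subst ht
      exact FF_one C _
    · obtain ⟨h1, h2⟩ := ih ht
      rw [h2, zero_smul, add_zero]
      have := FF_br C hG (FF_one C x) h1
      rw [List.length_cons]
      rwa [add_comm 1] at this

end

section

variable (g : Type) [NormedAddCommGroup g] [NormedSpace ℝ g] [FiniteDimensional ℝ g] (r : ℕ)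

/-- NILP -/
theorem nilp (hGr : GradeStatement g r) : NilpStatement g r := by
  intro C
  obtain ⟨hG, hder, -, -, hanti⟩ := hGr C
  have h2 : ∀ a : Fin (C.s + 1) → g, (List.ofFn fun i => C.rep (a i)).prod = 0 := by
    intro a
    have h3 : (List.ofFn fun i => C.rep (a i)) = (List.ofFn a).map C.rep := by
      rw [List.map_ofFn]
      rfl
    rw [h3]
    ext p
    · have h4 := (prod_mem C hG (List.ofFn a) (by simp) (ContinuousLinearMap.inl ℝ g ℝ p)).1
      rw [List.length_ofFn, FF_top, Submodule.mem_bot] at h4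
      exact h4
    · exact (prod_mem C hG (List.ofFn a) (by simp) (ContinuousLinearMap.inl ℝ g ℝ p)).2
    · have h4 := (prod_mem C hG (List.ofFn a) (by simp) (ContinuousLinearMap.inr ℝ g ℝ 1)).1
      rw [List.length_ofFn, FF_top, Submodule.mem_bot] at h4
      exact h4
    · exact (prod_mem C hG (List.ofFn a) (by simp) (ContinuousLinearMap.inr ℝ g ℝ 1)).2
  refine ⟨fun a => h2 fun i => C.X (a i), h2, ?_⟩
  intro x y
  refine ContinuousLinearMap.ext fun p => ?_
  change C.rep x (C.rep y p) - C.rep y (C.rep x p) = C.rep (C.br x y) p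
  simp only [Carnot.rep_apply, zero_smul, add_zero]
  refine Prod.ext ?_ ?_
  · change C.br x (C.br y p.1 + p.2 • C.D y) - C.br y (C.br x p.1 + p.2 • C.D x) =
      C.br (C.br x y) p.1 + p.2 • C.D (C.br x y)
    rw [map_add, map_add, map_smul, map_smul, C.jacobi x y p.1, hder x y,
      hanti (C.D x) y]
    module
  · change (0 : ℝ) - 0 = 0
    rw [sub_zero]

/-- KAPPA -/
theorem kappa (hGr : GradeStatement g r) : KappaStatement g r := by
  intro C b
  obtain ⟨hG, hder, -, -, hanti⟩ := hGr C
  have hinj : Function.Injective (C.kap b : g →ₗ[ℝ] g) := by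
    rw [injective_iff_map_eq_zero]
    intro w hw
    have hw' : C.D w + C.br w b = 0 := hw
    have key : ∀ k, w ∈ FF C (k + 1) := by
      intro k
      induction k with
      | zero => exact FF_one C w
      | succ k ih =>
        obtain ⟨a, ha, c, hc, rfl⟩ := FF_split C ih
        have h1 : C.br (a + c) b ∈ FF C (k + 1 + 1) := FF_br C hG ih (FF_one C b)
        have h2 : ((k + 1 : ℕ) : ℝ) • a = - (C.D c + C.br (a + c) b) := by
          rw [map_add, C.D_V _ a ha] at hw'
          rw [eq_neg_iff_add_eq_zero, ← hw']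
          abel
        have h3 : ((k + 1 : ℕ) : ℝ) • a ∈ FF C (k + 1 + 1) := by
          rw [h2]
          exact Submodule.neg_mem _ (Submodule.add_mem _ (FF_D C hc) h1)
        have h4 : a ∈ FF C (k + 1 + 1) := by
          have h5 := Submodule.smul_mem _ (((k + 1 : ℕ) : ℝ)⁻¹) h3
          rwa [smul_smul, inv_mul_cancel₀ (Nat.cast_ne_zero.2 (Nat.succ_ne_zero k)),
            one_smul] at h5
        exact Submodule.add_mem _ h4 hc
    have h1 := key C.s
    rwa [FF_top, Submodule.mem_bot] at h1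
  exact ⟨hinj, LinearMap.injective_iff_surjective.1 hinj⟩

end

end Pool.Agent.CutLoci.H70
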