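import Pool.Agent.Lib.MP_0e3b4a_gt.Iface2
import Pool.Agent.Lib.MP_0e3b4a_gt.H70.Nilp

/-! # Module CHAR: the chart separates points of the group -/

set_option autoImplicit false

namespace Pool.Agent.CutLoci.H70

open MeasureTheory Set Filter Topology
open Pool.Agent.CutLoci

section

variable {g : Type} [NormedAddCommGroup g] [NormedSpace ℝ g] {r : ℕ}

/-- a linear map with these two properties is determined by `b` -/
theorem lin_unique (C : Carnot g r)
    (hG : ∀ i j, ∀ x ∈ C.V i, ∀ y ∈ C.V j, C.br x y ∈ C.V (i + j)) {b : g} {α α' : g →L[ℝ] g}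
    (h1 : ∀ z, α (C.D z) = C.D (α z) + C.br (α z) b)
    (h1' : ∀ z, α' (C.D z) = C.D (α' z) + C.br (α' z) b)
    (h2 : ∀ k, ∀ z ∈ FF C k, α z - z ∈ FF C (k + 1))
    (h2' : ∀ k, ∀ z ∈ FF C k, α' z - z ∈ FF C (k + 1)) : α = α' := by
  have key : ∀ j, ∀ v ∈ C.V j, α v - α' v = 0 := by
    intro j v hv
    have hn : ∀ n, α v - α' v ∈ FF C (j + 1 + n) := by
      intro n
      induction n with
      | zero =>
        have h3 := Submodule.sub_mem _ (h2 j v (mem_FF C le_rfl hv)) (h2' j v (mem_FF C le_rfl hv))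
        rwa [sub_sub_sub_cancel_right] at h3
      | succ n ih =>
        obtain ⟨a, ha, c, hc, hac⟩ := FF_split C ih
        have h3 : (j : ℝ) • (α v - α' v) = C.D (α v - α' v) + C.br (α v - α' v) b := by
          have h4 := h1 v
          have h5 := h1' v
          rw [C.D_V j v hv, map_smul] at h4 h5
          rw [smul_sub, h4, h5, map_sub, map_sub]
          change _ = _ + (C.br (α v) b - C.br (α' v) b)
          abel
        have h6 : ((n + 1 : ℕ) : ℝ) • a = (j : ℝ) • c - C.D c - C.br (α v - α' v) b := by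
          have h7 : C.D (α v - α' v) = ((j + 1 + n : ℕ) : ℝ) • a + C.D c := by
            rw [hac, map_add, C.D_V _ a ha]
          rw [h7] at h3
          have h8 : C.br (α v - α' v) b = (j : ℝ) • (a + c) -
              (((j + 1 + n : ℕ) : ℝ) • a + C.D c) := by
            rw [← hac, h3]
            abel
          rw [h8]
          push_cast
          module
        have h9 : ((n + 1 : ℕ) : ℝ) • a ∈ FF C (j + 1 + n + 1) := by
          rw [h6]
          refine Submodule.sub_mem _ (Submodule.sub_mem _ (Submodule.smul_mem _ _ hc)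
            (FF_D C hc)) ?_
          exact FF_br C hG ih (FF_one C b)
        have h10 : a ∈ FF C (j + 1 + n + 1) := by
          have h5 := Submodule.smul_mem _ (((n + 1 : ℕ) : ℝ)⁻¹) h9
          rwa [smul_smul, inv_mul_cancel₀ (Nat.cast_ne_zero.2 (Nat.succ_ne_zero n)),
            one_smul] at h5
        rw [hac]
        exact Submodule.add_mem _ h10 hc
    have h3 := FF_anti C (show C.s + 1 ≤ j + 1 + C.s by omega) (hn C.s)
    rwa [FF_top, Submodule.mem_bot] at h3
  refine ContinuousLinearMap.ext fun z => ?_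
  have hz : z ∈ ⨆ j, C.V j := by rw [C.V_top]; trivial
  induction hz using Submodule.iSup_induction' with
  | mem i w hw => exact sub_eq_zero.1 (key i w hw)
  | zero => rw [map_zero, map_zero]
  | add a b _ _ ha hb => rw [map_add, map_add, ha, hb]

end

section

variable {g : Type} [NormedAddCommGroup g] [NormedSpace ℝ g] [FiniteDimensional ℝ g] {r : ℕ}

theorem integral_mem (S : Submodule ℝ g) {f : ℝ → g} {t : ℝ} (ht : 0 ≤ t)
    (hf : ∀ s ∈ Ioc (0 : ℝ) t, f s ∈ S) : ∫ s in (0 : ℝ)..t, f s ∈ S := by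
  by_cases hint : IntervalIntegrable f volume 0 t
  · by_contra hcon
    obtain ⟨φ, hφ1, hφ2⟩ := Submodule.exists_dual_map_eq_bot_of_notMem hcon inferInstance
    apply hφ1
    have h1 := (LinearMap.toContinuousLinearMap φ).intervalIntegral_comp_comm hint
    have h2 : ∫ s in (0 : ℝ)..t, (LinearMap.toContinuousLinearMap φ) (f s) = 0 := by
      rw [intervalIntegral.integral_of_le ht]
      refine setIntegral_eq_zero_of_forall_eq_zero fun s hs => ?_
      have h3 : φ (f s) ∈ S.map φ := Submodule.mem_map_of_mem (hf s hs)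
      rw [hφ2, Submodule.mem_bot] at h3
      exact h3
    rw [h2] at h1
    exact h1.symm
  · rw [intervalIntegral.integral_undef hint]
    exact Submodule.zero_mem _

theorem rep_pow_mem (C : Carnot g r)
    (hG : ∀ i j, ∀ x ∈ C.V i, ∀ y ∈ C.V j, C.br x y ∈ C.V (i + j)) (x : g) {k : ℕ} {z : g}
    (hz : z ∈ FF C k) (n : ℕ) :
    ((C.rep x ^ n) (z, (0 : ℝ))).1 ∈ FF C (k + n) ∧ ((C.rep x ^ n) (z, (0 : ℝ))).2 = 0 := by
  induction n with
  | zero => exact ⟨hz, rfl⟩
  | succ n ih =>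
    rw [pow_succ']
    change (C.rep x ((C.rep x ^ n) (z, (0 : ℝ)))).1 ∈ _ ∧
      (C.rep x ((C.rep x ^ n) (z, (0 : ℝ)))).2 = 0
    rw [Carnot.rep_apply]
    refine ⟨?_, rfl⟩
    rw [ih.2, zero_smul, add_zero]
    have := FF_br C hG (FF_one C x) ih.1
    rwa [show 1 + (k + n) = k + (n + 1) by ring] at this

theorem pt_lin_sub (C : Carnot g r)
    (hG : ∀ i j, ∀ x ∈ C.V i, ∀ y ∈ C.V j, C.br x y ∈ C.V (i + j)) {x : g}
    (hx : C.rep x ^ (C.s + 1) = 0) (k : ℕ) (z : g) (hz : z ∈ FF C k) :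
    Carnot.lin (C.pt x) z - z ∈ FF C (k + 1) := by
  have h1 : C.pt x = ∑ n ∈ Finset.range (C.s + 1), ((n.factorial : ℝ)⁻¹) • C.rep x ^ n := by
    rw [Carnot.pt, NormedSpace.exp_eq_tsum ℝ]
    refine tsum_eq_sum fun n hn => ?_
    rw [Finset.mem_range, not_lt] at hn
    rw [pow_eq_zero_of_le hn hx, smul_zero]
  have h2 : Carnot.lin (C.pt x) z = (C.pt x (z, (0 : ℝ))).1 := rfl
  have h3 : C.pt x (z, (0 : ℝ)) = ∑ n ∈ Finset.range (C.s + 1),
      ((n.factorial : ℝ)⁻¹) • ((C.rep x ^ n) (z, (0 : ℝ))) := by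
    rw [h1, _root_.sum_apply]
    rfl
  rw [h2, h3, Finset.sum_range_succ', Prod.fst_add, Prod.fst_sum]
  have h4 : ((((0 : ℕ).factorial : ℝ)⁻¹) • ((C.rep x ^ 0) (z, (0 : ℝ)))).1 = z := by
    rw [Nat.factorial_zero, Nat.cast_one, inv_one, one_smul, pow_zero]
    rfl
  rw [h4, add_sub_cancel_right]
  refine Submodule.sum_mem _ fun n _ => ?_
  rw [Prod.smul_fst]
  refine Submodule.smul_mem _ _ ?_
  exact FF_anti C (by omega) (rep_pow_mem C hG x hz (n + 1)).1

/-- the derivative of `exp (t rep x) p` -/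
theorem hasDerivAt_exp (C : Carnot g r) (x : g) (p : g × ℝ) (t : ℝ) :
    HasDerivAt (fun t : ℝ => NormedSpace.exp (t • C.rep x) p)
      (C.rep x (NormedSpace.exp (t • C.rep x) p)) t := by
  have h1 := hasDerivAt_exp_smul_const' (𝕂 := ℝ) (C.rep x) t
  let ev : Carnot.Aff g →L[ℝ] g × ℝ := ContinuousLinearMap.apply ℝ (g × ℝ) p
  exact ev.hasFDerivAt.comp_hasDerivAt t h1

theorem exp_snd (C : Carnot g r) (x : g) (p : g × ℝ) (t : ℝ) :
    (NormedSpace.exp (t • C.rep x) p).2 = p.2 := by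
  have h1 : ∀ t : ℝ, HasDerivAt (fun t : ℝ => (NormedSpace.exp (t • C.rep x) p).2) 0 t := by
    intro t
    have h2 := (ContinuousLinearMap.snd ℝ g ℝ).hasFDerivAt.comp_hasDerivAt t
      (hasDerivAt_exp C x p t)
    rw [Carnot.rep_apply] at h2
    exact h2
  have h3 := is_const_of_deriv_eq_zero (fun t => (h1 t).differentiableAt)
    (fun t => (h1 t).deriv) t 0
  rw [h3, zero_smul, NormedSpace.exp_zero]
  rfl

theorem hasDerivAt_fst (C : Carnot g r) (x : g) (p : g × ℝ) (t : ℝ) :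
    HasDerivAt (fun t : ℝ => (NormedSpace.exp (t • C.rep x) p).1)
      (C.br x (NormedSpace.exp (t • C.rep x) p).1 + p.2 • C.D x) t := by
  have h2 := (ContinuousLinearMap.fst ℝ g ℝ).hasFDerivAt.comp_hasDerivAt t
    (hasDerivAt_exp C x p t)
  rw [Carnot.rep_apply, exp_snd] at h2
  exact h2

/-- the linear part and the origin of `exp (rep x)` -/
theorem pt_rel (C : Carnot g r)
    (hder : ∀ x y, C.D (C.br x y) = C.br (C.D x) y + C.br x (C.D y))
    (hanti : ∀ x y, C.br x y = - C.br y x) (x z : g) :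
    Carnot.lin (C.pt x) (C.D z) = C.D (Carnot.lin (C.pt x) z) +
      C.br (Carnot.lin (C.pt x) z) (Carnot.org (C.pt x)) := by
  set a : ℝ → g := fun t => (NormedSpace.exp (t • C.rep x) (z, (0 : ℝ))).1 with ha
  set b : ℝ → g := fun t => (NormedSpace.exp (t • C.rep x) ((0 : g), (1 : ℝ))).1 with hb
  set θ : ℝ → g := fun t => (NormedSpace.exp (t • C.rep x) (C.D z, (0 : ℝ))).1 with hθ
  have ha' : ∀ t, HasDerivAt a (C.br x (a t)) t := by
    intro t
    have := hasDerivAt_fst C x (z, (0 : ℝ)) t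
    rwa [zero_smul, add_zero] at this
  have hb' : ∀ t, HasDerivAt b (C.br x (b t) + C.D x) t := by
    intro t
    have := hasDerivAt_fst C x ((0 : g), (1 : ℝ)) t
    rwa [one_smul] at this
  have hθ' : ∀ t, HasDerivAt θ (C.br x (θ t)) t := by
    intro t
    have := hasDerivAt_fst C x (C.D z, (0 : ℝ)) t
    rwa [zero_smul, add_zero] at this
  set ψ : ℝ → g := fun t => C.D (a t) + C.br (a t) (b t) with hψ
  have hψ' : ∀ t, HasDerivAt ψ (C.br x (ψ t)) t := by
    intro t
    have h1 : HasDerivAt (fun t => C.D (a t)) (C.D (C.br x (a t))) t :=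
      C.D.hasFDerivAt.comp_hasDerivAt t (ha' t)
    have h2 : HasDerivAt (fun t => C.br (a t) (b t))
        (C.br (a t) (C.br x (b t) + C.D x) + C.br (C.br x (a t)) (b t)) t :=
      C.br.hasDerivAt_of_bilinear (fun _ => ha' t) (fun _ => hb' t)
    have h3 := h1.add h2
    have h4 : C.D (C.br x (a t)) +
        (C.br (a t) (C.br x (b t) + C.D x) + C.br (C.br x (a t)) (b t)) =
        C.br x (ψ t) := by
      rw [hder, map_add, hψ]
      simp only
      rw [map_add, C.jacobi x (a t) (b t), hanti (C.D x) (a t)]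
      abel
    rw [h4] at h3
    exact h3
  have h0 : ψ 0 = θ 0 := by
    simp only [hψ, hθ, ha, hb, zero_smul, NormedSpace.exp_zero]
    change C.D z + C.br z 0 = C.D z
    rw [map_zero, add_zero]
  have heq : ψ = θ := by
    refine ODE_solution_unique_univ (v := fun _ y => C.br x y) (s := fun _ => univ)
      (K := ‖C.br x‖₊) (t₀ := 0) (fun _ => (C.br x).lipschitz.lipschitzOnWith)
      (fun t => ⟨hψ' t, trivial⟩) (fun t => ⟨hθ' t, trivial⟩) h0
  have h1 := congrFun heq 1
  simp only [hψ, hθ, ha, hb, one_smul] at h1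
  exact h1.symm

theorem pt_apply (C : Carnot g r) (x z : g) (c : ℝ) :
    C.pt x (z, c) = (Carnot.lin (C.pt x) z + c • Carnot.org (C.pt x), c) := by
  have h1 : C.pt x (z, c) = C.pt x (z, 0) + c • C.pt x (0, 1) := by
    rw [← map_smul, ← map_add, Prod.smul_mk, Prod.mk_add_mk, smul_zero, add_zero, zero_add,
      smul_eq_mul, mul_one]
  refine Prod.ext ?_ ?_
  · rw [h1]
    rfl
  · have h2 := exp_snd C x (z, c) 1
    rw [one_smul] at h2
    exact h2

theorem ad_sub (C : Carnot g r)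
    (hG : ∀ i j, ∀ x ∈ C.V i, ∀ y ∈ C.V j, C.br x y ∈ C.V (i + j)) {u : ℝ → EE r}
    (hint : ∀ t ∈ Icc (0 : ℝ) 1, ∀ z,
      C.Ad u t z = z + ∫ s in (0 : ℝ)..t, C.Ad u s (C.br (C.X (u s)) z)) :
    ∀ n k, C.s + 1 ≤ n + k → ∀ t ∈ Icc (0 : ℝ) 1, ∀ z ∈ FF C k,
      C.Ad u t z - z ∈ FF C (k + 1) := by
  intro n
  induction n with
  | zero =>
    intro k hk t _ z hz
    have h1 := FF_anti C (show C.s + 1 ≤ k by omega) hz
    rw [FF_top, Submodule.mem_bot] at h1
    rw [h1, map_zero, sub_zero]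
    exact Submodule.zero_mem _
  | succ n ih =>
    intro k hk t ht z hz
    rw [hint t ht z, add_sub_cancel_left]
    refine integral_mem _ ht.1 fun s hs => ?_
    have hs' : s ∈ Icc (0 : ℝ) 1 := ⟨hs.1.le, hs.2.trans ht.2⟩
    have h1 : C.br (C.X (u s)) z ∈ FF C (k + 1) := by
      have := FF_br C hG (FF_one C (C.X (u s))) hz
      rwa [add_comm 1] at this
    have h2 := ih (k + 1) (by omega) s hs' _ h1
    have h3 := Submodule.add_mem _ (FF_anti C (Nat.le_succ _) h2) h1
    rwa [sub_add_cancel] at h3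

end

section

variable (g : Type) [NormedAddCommGroup g] [NormedSpace ℝ g] [FiniteDimensional ℝ g] (r : ℕ)

/-- CHAR -/
theorem char (hS : StrucStatement g r) (hGr : GradeStatement g r) (hNi : NilpStatement g r) :
    CharStatement g r := by
  intro C u hu x horg
  obtain ⟨hG, hder, -, -, hanti⟩ := hGr C
  have hN : C.rep x ^ (C.s + 1) = 0 := by
    have := (hNi C).2.1 fun _ => x
    rwa [List.ofFn_const, List.prod_replicate] at this
  obtain ⟨-, -, hst⟩ := hS C u hu
  have h1 : (1 : ℝ) ∈ Icc (0 : ℝ) 1 := ⟨zero_le_one, le_rfl⟩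
  obtain ⟨haff, -, hconj, -, -, -⟩ := hst 1 h1
  have hlin : C.Ad u 1 = Carnot.lin (C.pt x) := by
    refine lin_unique C hG (b := Carnot.org (C.pt x)) ?_ (pt_rel C hder hanti x) ?_
      (fun k z hz => pt_lin_sub C hG hN k z hz)
    · intro z
      have h2 := congrArg (fun T : Carnot.Aff g => (T ((0 : g), (1 : ℝ))).1) (hconj z)
      have h3 : C.Gam u 1 (C.rep z ((0 : g), (1 : ℝ))) = (C.Ad u 1 (C.D z), 0) := by
        rw [Carnot.rep_apply, haff, map_zero, zero_add, one_smul, zero_smul, add_zero]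
      have h4 : C.rep (C.Ad u 1 z) (C.Gam u 1 ((0 : g), (1 : ℝ))) =
          (C.br (C.Ad u 1 z) (Carnot.org (C.Gam u 1)) + C.D (C.Ad u 1 z), 0) := by
        rw [haff, map_zero, zero_add, one_smul, Carnot.rep_apply, one_smul]
      change (C.Gam u 1 (C.rep z ((0 : g), (1 : ℝ)))).1 =
        (C.rep (C.Ad u 1 z) (C.Gam u 1 ((0 : g), (1 : ℝ)))).1 at h2
      rw [h3, h4, horg] at h2
      rw [add_comm]
      exact h2
    · intro k z hz
      exact ad_sub C hG (fun t ht z => (hst t ht).2.2.2.1 z) (C.s + 1) k (by omega) 1 h1 z hz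
  refine ContinuousLinearMap.ext fun p => ?_
  obtain ⟨z, c⟩ := p
  rw [haff, pt_apply, hlin, horg]

end

end Pool.Agent.CutLoci.H70
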