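import Pool.Agent.Lib.MP_0e3b4a_gt.Iface

/-! # Modules GRADE, NILP, KAPPA: the graded algebra -/

set_option autoImplicit false

namespace Pool.Agent.CutLoci.H70

open MeasureTheory Set Filter Topology
open Pool.Agent.CutLoci

section

variable {g : Type} [NormedAddCommGroup g] [NormedSpace ℝ g] {r : ℕ}

theorem br_anti (C : Carnot g r) (x y : g) : C.br x y = - C.br y x := by
  have h := C.br_self (x + y)
  simp only [map_add, _root_.add_apply, C.br_self] at h
  rw [zero_add, add_zero] at h
  exact eq_neg_of_add_eq_zero_right h

theorem br_one (C : Carnot g r) (j : ℕ) {x y : g} (hx : x ∈ C.V 1) (hy : y ∈ C.V j) :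
    C.br x y ∈ C.V (1 + j) := by
  rcases Nat.eq_zero_or_pos j with h | h
  · subst h
    rw [C.V_zero, Submodule.mem_bot] at hy
    rw [hy, map_zero]
    exact Submodule.zero_mem _
  · rw [add_comm 1 j, C.gen j h]
    exact Submodule.subset_span ⟨x, hx, y, hy, rfl⟩

theorem br_mem (C : Carnot g r) : ∀ i j, ∀ x ∈ C.V i, ∀ y ∈ C.V j, C.br x y ∈ C.V (i + j) := by
  intro i
  induction i with
  | zero =>
    intro j x hx y _
    rw [C.V_zero, Submodule.mem_bot] at hx
    rw [hx, map_zero]
    exact Submodule.zero_mem _
  | succ i ih =>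
    intro j x hx y hy
    rcases Nat.eq_zero_or_pos i with h | h
    · subst h
      exact br_one C j hx hy
    · rw [C.gen i h] at hx
      induction hx using Submodule.span_induction with
      | mem z hz =>
        obtain ⟨a, ha, b, hb, rfl⟩ := hz
        have h1 : C.br (C.br a b) y = C.br a (C.br b y) - C.br b (C.br a y) := by
          rw [C.jacobi a b y]; abel
        rw [h1]
        refine Submodule.sub_mem _ ?_ ?_
        · have := br_one C (i + j) ha (ih j b hb y hy)
          rwa [show 1 + (i + j) = i + 1 + j by ring] at this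
        · have := ih (1 + j) b hb (C.br a y) (br_one C j ha hy)
          rwa [show i + (1 + j) = i + 1 + j by ring] at this
      | zero =>
        rw [map_zero]
        exact Submodule.zero_mem _
      | add a b _ _ ha hb =>
        rw [map_add]
        exact Submodule.add_mem _ ha hb
      | smul c a _ ha =>
        rw [map_smul]
        exact Submodule.smul_mem _ c ha

theorem exists_comp (C : Carnot g r) (x : g) : ∃ y : ℕ → g, (∀ j, y j ∈ C.V j) ∧
    x = ∑ j ∈ Finset.Icc 1 C.s, y j := by
  have hx : x ∈ ⨆ j, C.V j := by rw [C.V_top]; trivial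
  induction hx using Submodule.iSup_induction' with
  | mem i z hz =>
    by_cases hi : i ∈ Finset.Icc 1 C.s
    · refine ⟨Pi.single i z, ?_, ?_⟩
      · intro j
        by_cases hj : j = i
        · subst hj
          rw [Pi.single_eq_same]
          exact hz
        · rw [Pi.single_eq_of_ne hj]
          exact Submodule.zero_mem _
      · rw [Finset.sum_eq_single i]
        · rw [Pi.single_eq_same]
        · intro j _ hj
          exact Pi.single_eq_of_ne hj _
        · intro h
          exact absurd hi h
    · have hz0 : z = 0 := by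
        rw [Finset.mem_Icc, not_and_or, not_le, not_le] at hi
        rcases hi with h | h
        · have : i = 0 := by omega
          rw [this, C.V_zero, Submodule.mem_bot] at hz
          exact hz
        · rw [C.V_big i h, Submodule.mem_bot] at hz
          exact hz
      refine ⟨0, fun j => Submodule.zero_mem _, ?_⟩
      rw [hz0]
      simp
  | zero => exact ⟨0, fun j => Submodule.zero_mem _, by simp⟩
  | add a b _ _ ha hb =>
    obtain ⟨y, hy, rfl⟩ := ha
    obtain ⟨z, hz, rfl⟩ := hb
    refine ⟨y + z, fun j => Submodule.add_mem _ (hy j) (hz j), ?_⟩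
    rw [← Finset.sum_add_distrib]
    rfl

theorem deriv_br (C : Carnot g r) (x y : g) :
    C.D (C.br x y) = C.br (C.D x) y + C.br x (C.D y) := by
  obtain ⟨a, ha, rfl⟩ := exists_comp C x
  obtain ⟨b, hb, rfl⟩ := exists_comp C y
  simp only [map_sum, _root_.sum_apply]
  rw [← Finset.sum_add_distrib]
  refine Finset.sum_congr rfl fun i _ => ?_
  rw [← Finset.sum_add_distrib]
  refine Finset.sum_congr rfl fun j _ => ?_
  rw [C.D_V (j + i) _ (br_mem C j i _ (ha j) _ (hb i)), C.D_V j _ (ha j), C.D_V i _ (hb i),
    map_smul, map_smul, _root_.smul_apply, ← add_smul]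
  push_cast
  rfl

end

section

variable (g : Type) [NormedAddCommGroup g] [NormedSpace ℝ g] [FiniteDimensional ℝ g] (r : ℕ)

/-- GRADE -/
theorem grade : GradeStatement g r := by
  intro C
  refine ⟨br_mem C, deriv_br C, ?_, exists_comp C, br_anti C⟩
  intro a
  have h : C.X a ∈ C.V 1 := by
    rw [← C.X_range]
    exact ⟨a, rfl⟩
  rw [C.D_V 1 _ h, Nat.cast_one, one_smul]

end

end Pool.Agent.CutLoci.H70
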