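import Pool.Agent.Lib.MP_0e3b4a_gt.Iface3

/-! # Module SEVN: dimensions -/

set_option autoImplicit false

namespace Pool.Agent.CutLoci.H70

open MeasureTheory Set Filter Topology
open Pool.Agent.CutLoci

section

variable {g : Type} [NormedAddCommGroup g] [NormedSpace ℝ g] [FiniteDimensional ℝ g]

theorem dim_layers (C : Carnot g 2) (n : ℕ) (z : Fin n → g) (hz : ∀ i : Fin n, z i ∈ C.V ((i : ℕ) + 2))
    (h0 : ∀ i, z i ≠ 0) : n + 2 ≤ Module.finrank ℝ g := by
  have hinj : Function.Injective fun i : Fin n => (((i : ℕ) + 2 : ℕ) : ℝ) := by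
    intro i j h
    have h1 : ((i : ℕ) + 2 : ℕ) = (j : ℕ) + 2 := Nat.cast_injective h
    exact Fin.ext (by omega)
  have hlin : LinearIndependent ℝ z :=
    Module.End.eigenvectors_linearIndependent' C.D.toLinearMap
      (fun i : Fin n => (((i : ℕ) + 2 : ℕ) : ℝ)) hinj z fun i => by
        rw [Module.End.hasEigenvector_iff, Module.End.mem_eigenspace_iff]
        exact ⟨C.D_V _ _ (hz i), h0 i⟩
  have h1 : Module.finrank ℝ (Submodule.span ℝ (range z)) = n := by
    rw [finrank_span_eq_card hlin, Fintype.card_fin]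
  have h2 : Module.finrank ℝ (C.V 1) = 2 := by
    rw [← C.X_range, LinearMap.finrank_range_of_inj C.X_inj, finrank_euclideanSpace_fin]
  have hdis : C.V 1 ⊓ Submodule.span ℝ (range z) = ⊥ := by
    rw [← disjoint_iff]
    have hi := Module.End.eigenspaces_iSupIndep C.D.toLinearMap
    refine (hi (1 : ℝ)).mono ?_ ?_
    · intro x hx
      rw [Module.End.mem_eigenspace_iff]
      have := C.D_V 1 x hx
      rw [Nat.cast_one] at this
      exact this
    · rw [Submodule.span_le]
      rintro _ ⟨i, rfl⟩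
      have h3 : Module.End.eigenspace C.D.toLinearMap (((i : ℕ) + 2 : ℕ) : ℝ) ≤
          ⨆ (j : ℝ) (_ : j ≠ 1), Module.End.eigenspace C.D.toLinearMap j := by
        refine le_iSup₂_of_le (((i : ℕ) + 2 : ℕ) : ℝ) ?_ le_rfl
        have : ((i : ℕ) + 2 : ℕ) ≠ 1 := by omega
        exact_mod_cast this
      exact h3 (by rw [Module.End.mem_eigenspace_iff]; exact C.D_V _ _ (hz i))
  have h4 := Submodule.finrank_sup_add_finrank_inf_eq (C.V 1) (Submodule.span ℝ (range z))
  rw [hdis, finrank_bot, h1, h2] at h4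
  have h5 := Submodule.finrank_le (C.V 1 ⊔ Submodule.span ℝ (range z))
  omega

omit [FiniteDimensional ℝ g] in
theorem layer_ne (C : Carnot g 2) {k : ℕ} (h : C.V k ≠ ⊥) : ∀ j, 1 ≤ j → j ≤ k → C.V j ≠ ⊥ := by
  intro j h1 hjk
  induction hjk using Nat.decreasingInduction with
  | self => exact h
  | of_succ j hj ih =>
    intro h0
    apply ih (by omega)
    rw [C.gen j h1, Submodule.span_eq_bot]
    rintro _ ⟨x, _, y, hy, rfl⟩
    rw [h0, Submodule.mem_bot] at hy
    rw [hy, map_zero]

theorem dim_of_layer (C : Carnot g 2) (n : ℕ) (h : C.V (n + 1) ≠ ⊥) :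
    n + 2 ≤ Module.finrank ℝ g := by
  have h1 : ∀ i : Fin n, ∃ z ∈ C.V ((i : ℕ) + 2), z ≠ 0 := fun i =>
    Submodule.exists_mem_ne_zero_of_ne_bot (layer_ne C h _ (by omega) (by omega))
  choose z hz h0 using h1
  exact dim_layers C n z hz h0

end

section

variable (g : Type) [NormedAddCommGroup g] [NormedSpace ℝ g] [FiniteDimensional ℝ g]

/-- SEVN -/
theorem sevn : SevnStatement g := by
  intro C
  refine ⟨fun h => dim_of_layer C 5 h, fun h => ?_⟩
  have := dim_of_layer C 2 h
  omega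

end

end Pool.Agent.CutLoci.H70
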