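import Pool.Agent.Lib.MP_0e3b4a_gt.Iface2
import Pool.Agent.Lib.MP_0e3b4a_gt.H70.Nilp

/-! # Module PHI: exponential coordinates and the chart -/

set_option autoImplicit false

namespace Pool.Agent.CutLoci.H70

open MeasureTheory Set Filter Topology
open Pool.Agent.CutLoci

section

variable {g : Type} [NormedAddCommGroup g] [NormedSpace ℝ g] {r : ℕ}

/-- `(ad x)^n D x` -/
noncomputable def adD (C : Carnot g r) (x : g) : ℕ → g
  | 0 => C.D x
  | n + 1 => C.br x (adD C x n)

theorem adD_mem (C : Carnot g r)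
    (hG : ∀ i j, ∀ x ∈ C.V i, ∀ y ∈ C.V j, C.br x y ∈ C.V (i + j)) (x : g) (n : ℕ) :
    adD C x n ∈ FF C (n + 1) := by
  induction n with
  | zero => exact FF_one C _
  | succ n ih =>
    have := FF_br C hG (FF_one C x) ih
    rwa [add_comm 1] at this

theorem adD_sub (C : Carnot g r)
    (hG : ∀ i j, ∀ x ∈ C.V i, ∀ y ∈ C.V j, C.br x y ∈ C.V (i + j)) {x y : g} {k : ℕ}
    (h : x - y ∈ FF C k) (n : ℕ) : adD C x n - adD C y n ∈ FF C (k + n) := by
  induction n with
  | zero =>
    change C.D x - C.D y ∈ _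
    rw [← map_sub]
    exact FF_D C h
  | succ n ih =>
    have h1 : adD C x (n + 1) - adD C y (n + 1) =
        C.br (x - y) (adD C x n) + C.br y (adD C x n - adD C y n) := by
      change C.br x (adD C x n) - C.br y (adD C y n) = _
      rw [map_sub, map_sub, _root_.sub_apply]
      abel
    rw [h1]
    refine Submodule.add_mem _ ?_ ?_
    · exact FF_br C hG h (adD_mem C hG x n)
    · have := FF_br C hG (FF_one C y) ih
      rwa [show 1 + (k + n) = k + (n + 1) by ring] at this

theorem D_inv (C : Carnot g r) {k : ℕ} {z : g} (hz : z ∈ FF C (k + 1))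
    (h : C.D z ∈ FF C (k + 1 + 1)) : z ∈ FF C (k + 1 + 1) := by
  obtain ⟨a, ha, c, hc, rfl⟩ := FF_split C hz
  have h2 : ((k + 1 : ℕ) : ℝ) • a = C.D (a + c) - C.D c := by
    rw [map_add, C.D_V _ a ha]
    abel
  have h3 : ((k + 1 : ℕ) : ℝ) • a ∈ FF C (k + 1 + 1) := by
    rw [h2]
    exact Submodule.sub_mem _ h (FF_D C hc)
  have h4 : a ∈ FF C (k + 1 + 1) := by
    have h5 := Submodule.smul_mem _ (((k + 1 : ℕ) : ℝ)⁻¹) h3
    rwa [smul_smul, inv_mul_cancel₀ (Nat.cast_ne_zero.2 (Nat.succ_ne_zero k)),
      one_smul] at h5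
  exact Submodule.add_mem _ h4 hc

theorem D_inv' (C : Carnot g r) (k : ℕ) {z : g} (h : C.D z ∈ FF C (k + 1)) :
    z ∈ FF C (k + 1) := by
  induction k with
  | zero => exact FF_one C z
  | succ k ih =>
    exact D_inv C (ih (FF_anti C (Nat.le_succ _) h)) h

end

section

variable {g : Type} [NormedAddCommGroup g] [NormedSpace ℝ g] [FiniteDimensional ℝ g] {r : ℕ}

theorem rep_pow (C : Carnot g r) (x : g) (n : ℕ) :
    (C.rep x ^ (n + 1)) ((0 : g), (1 : ℝ)) = (adD C x n, 0) := by
  induction n with
  | zero =>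
    rw [zero_add, pow_one, Carnot.rep_apply]
    simp [adD]
  | succ n ih =>
    rw [pow_succ']
    change C.rep x ((C.rep x ^ (n + 1)) ((0 : g), (1 : ℝ))) = _
    rw [ih, Carnot.rep_apply]
    simp [adD]

/-- the sum formula for the chart in exponential coordinates -/
theorem org_pt (C : Carnot g r) {x : g} (hx : C.rep x ^ (C.s + 1) = 0) :
    Carnot.org (C.pt x) = ∑ n ∈ Finset.range C.s, (((n + 1).factorial : ℝ)⁻¹) • adD C x n := by
  have h1 : C.pt x = ∑ n ∈ Finset.range (C.s + 1), ((n.factorial : ℝ)⁻¹) • C.rep x ^ n := by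
    rw [Carnot.pt, NormedSpace.exp_eq_tsum ℝ]
    refine tsum_eq_sum fun n hn => ?_
    rw [Finset.mem_range, not_lt] at hn
    rw [pow_eq_zero_of_le hn hx, smul_zero]
  rw [Carnot.org, h1, Finset.sum_range_succ']
  have h2 : ∀ n, ((((n + 1).factorial : ℝ)⁻¹) • C.rep x ^ (n + 1)) ((0 : g), (1 : ℝ)) =
      ((((n + 1).factorial : ℝ)⁻¹) • adD C x n, 0) := by
    intro n
    change (((n + 1).factorial : ℝ)⁻¹) • ((C.rep x ^ (n + 1)) ((0 : g), (1 : ℝ))) = _
    rw [rep_pow, Prod.smul_mk, smul_zero]
  rw [_root_.add_apply, _root_.sum_apply,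
    Finset.sum_congr rfl fun n _ => h2 n]
  simp [Prod.fst_sum]

/-- the main estimate -/
theorem Phi_sub (C : Carnot g r)
    (hG : ∀ i j, ∀ x ∈ C.V i, ∀ y ∈ C.V j, C.br x y ∈ C.V (i + j))
    (hN : ∀ x, C.rep x ^ (C.s + 1) = 0) {x y : g} {k : ℕ} (h : x - y ∈ FF C k) :
    Carnot.org (C.pt x) - Carnot.org (C.pt y) - C.D (x - y) ∈ FF C (k + 1) := by
  rw [org_pt C (hN x), org_pt C (hN y), ← Finset.sum_sub_distrib]
  have h1 : ∀ n, (((n + 1).factorial : ℝ)⁻¹) • adD C x n -
      (((n + 1).factorial : ℝ)⁻¹) • adD C y n =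
      (((n + 1).factorial : ℝ)⁻¹) • (adD C x n - adD C y n) := fun n => (smul_sub _ _ _).symm
  rw [Finset.sum_congr rfl fun n _ => h1 n]
  rcases Nat.eq_zero_or_pos C.s with hs | hs
  · have h2 : ∀ z : g, z = 0 := by
      intro z
      have := FF_one C z
      have h3 := FF_top C
      rw [hs, zero_add] at h3
      rwa [h3, Submodule.mem_bot] at this
    rw [h2 (_ - _)]
    exact Submodule.zero_mem _
  · obtain ⟨s, hs⟩ : ∃ s, C.s = s + 1 := ⟨C.s - 1, by omega⟩
    rw [hs, Finset.sum_range_succ']
    have h2 : (((0 + 1).factorial : ℝ)⁻¹) • (adD C x 0 - adD C y 0) = C.D (x - y) := by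
      rw [zero_add, Nat.factorial_one, Nat.cast_one, inv_one, one_smul, map_sub]
      rfl
    rw [h2, add_sub_cancel_right]
    refine Submodule.sum_mem _ fun n _ => Submodule.smul_mem _ _ ?_
    exact FF_anti C (by omega) (adD_sub C hG h (n + 1))

end

section

variable (g : Type) [NormedAddCommGroup g] [NormedSpace ℝ g] [FiniteDimensional ℝ g] (r : ℕ)

/-- PHI -/
theorem phi (hGr : GradeStatement g r) (hNi : NilpStatement g r) : PhiStatement g r := by
  intro C
  obtain ⟨hG, -, -, -, -⟩ := hGr C
  have hN : ∀ x, C.rep x ^ (C.s + 1) = 0 := by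
    intro x
    have := (hNi C).2.1 fun _ => x
    rwa [List.ofFn_const, List.prod_replicate] at this
  set Φ : g → g := fun x => Carnot.org (C.pt x) with hΦ
  have hsub : ∀ {x y : g} {k : ℕ}, x - y ∈ FF C k → Φ x - Φ y - C.D (x - y) ∈ FF C (k + 1) :=
    fun h => Phi_sub C hG hN h
  have hzero : ∀ {z : g}, (∀ k, z ∈ FF C (k + 1)) → z = 0 := by
    intro z hz
    have h1 := hz C.s
    rwa [FF_top, Submodule.mem_bot] at h1
  -- injectivity
  have hinj : Function.Injective Φ := by
    intro x y hxy
    rw [← sub_eq_zero]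
    refine hzero fun k => ?_
    induction k with
    | zero => exact FF_one C _
    | succ k ih =>
      refine D_inv C ih ?_
      have h1 := hsub ih
      rw [hxy, sub_self, zero_sub] at h1
      exact (Submodule.neg_mem_iff _).1 h1
  -- surjectivity
  have hD : Function.Bijective C.D := by
    have h1 := kappa g r hGr C 0
    have h2 : C.kap 0 = C.D := by
      refine ContinuousLinearMap.ext fun w => ?_
      change C.D w + C.br w 0 = C.D w
      rw [map_zero, add_zero]
    rwa [h2] at h1
  have hsurj : Function.Surjective Φ := by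
    intro b
    obtain ⟨Di, hDi⟩ := hD.2.hasRightInverse
    set T : g → g := fun x => Di (b - (Φ x - C.D x)) with hT
    have hT1 : ∀ x, C.D (T x) = b - (Φ x - C.D x) := fun x => hDi _
    have hT2 : ∀ {x y : g} {k : ℕ}, x - y ∈ FF C k → T x - T y ∈ FF C (k + 1) := by
      intro x y k h
      refine D_inv' C k ?_
      have h1 : C.D (T x - T y) = - (Φ x - Φ y - C.D (x - y)) := by
        rw [map_sub, hT1, hT1, map_sub]
        abel
      rw [h1]
      exact Submodule.neg_mem _ (hsub h)
    have hT3 : ∀ n, ∀ x y, T^[n] x - T^[n] y ∈ FF C (n + 1) := by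
      intro n
      induction n with
      | zero => exact fun x y => FF_one C _
      | succ n ih =>
        intro x y
        rw [Function.iterate_succ_apply', Function.iterate_succ_apply']
        exact hT2 (ih x y)
    set c := T^[C.s] 0 with hc
    have h1 : T c = c := by
      have h2 := hT3 C.s (T 0) 0
      rw [FF_top, Submodule.mem_bot, sub_eq_zero] at h2
      rw [hc, ← Function.iterate_succ_apply' T, Function.iterate_succ_apply, h2]
    refine ⟨c, ?_⟩
    have h2 := hT1 c
    rw [h1] at h2
    have h3 : Φ c = b + (C.D c - (b - (Φ c - C.D c))) := by abel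
    rw [h3, ← h2, sub_self, add_zero]
  -- the derivative
  have hder : ∀ x, ∃ A : g ≃L[ℝ] g, HasStrictFDerivAt Φ (A : g →L[ℝ] g) x := by
    intro x
    have han : AnalyticAt ℝ Φ x := by
      let ev : Carnot.Aff g →L[ℝ] g := (ContinuousLinearMap.fst ℝ g ℝ).comp
        (ContinuousLinearMap.apply ℝ (g × ℝ) ((0 : g), (1 : ℝ)))
      have h1 : AnalyticAt ℝ (NormedSpace.exp : Carnot.Aff g → Carnot.Aff g) (C.rep x) :=
        NormedSpace.exp_analytic (𝕂 := ℝ) (C.rep x)
      have h2 : AnalyticAt ℝ (fun x : g => C.rep x) x := C.rep.analyticAt x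
      have h3 : AnalyticAt ℝ (fun x : g => NormedSpace.exp (C.rep x)) x := h1.fun_comp h2
      exact AnalyticAt.fun_comp (f := fun x : g => NormedSpace.exp (C.rep x))
        (ev.analyticAt (NormedSpace.exp (C.rep x))) h3
    have hst := han.hasStrictFDerivAt
    set L := fderiv ℝ Φ x with hL
    have hLinj : Function.Injective (L : g →ₗ[ℝ] g) := by
      rw [injective_iff_map_eq_zero]
      intro v hv
      have hv' : L v = 0 := hv
      refine hzero fun k => ?_
      induction k with
      | zero => exact FF_one C v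
      | succ k ih =>
        refine D_inv C ih ?_
        -- the derivative of `t ↦ Φ (x + t v) - Φ x - D (t v)`
        have h1 : HasDerivAt (fun t : ℝ => Φ (x + t • v) - Φ x - C.D (t • v))
            (L v - C.D v) 0 := by
          have h2 : HasDerivAt (fun t : ℝ => x + t • v) v 0 := by
            have := ((hasDerivAt_id (0 : ℝ)).smul_const v).const_add x
            rwa [one_smul] at this
          have h3 : HasDerivAt (fun t : ℝ => Φ (x + t • v)) (L v) 0 := by
            have h4 : HasFDerivAt Φ L (x + (0 : ℝ) • v) := by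
              rw [zero_smul, add_zero]
              exact hst.hasFDerivAt
            exact h4.comp_hasDerivAt 0 h2
          have h5 : HasDerivAt (fun t : ℝ => C.D (t • v)) (C.D v) 0 := by
            have h6 : HasDerivAt (fun t : ℝ => t • v) v 0 := by
              have := (hasDerivAt_id (0 : ℝ)).smul_const v
              rwa [one_smul] at this
            exact C.D.hasFDerivAt.comp_hasDerivAt 0 h6
          exact (h3.sub_const (Φ x)).sub h5
        have h2 := h1.tendsto_slope_zero
        have hcl : IsClosed ((FF C (k + 1 + 1) : Submodule ℝ g) : Set g) :=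
          Submodule.closed_of_finiteDimensional _
        have h3 : L v - C.D v ∈ FF C (k + 1 + 1) := by
          refine hcl.mem_of_tendsto h2 (Filter.Eventually.of_forall fun t => ?_)
          have h4 : ∀ t : ℝ, Φ (x + t • v) - Φ x - C.D (t • v) ∈ FF C (k + 1 + 1) := by
            intro t
            have h5 : x + t • v - x ∈ FF C (k + 1) := by
              rw [add_sub_cancel_left]
              exact Submodule.smul_mem _ _ ih
            have h6 := hsub h5
            rwa [add_sub_cancel_left] at h6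
          exact Submodule.smul_mem _ _ (Submodule.sub_mem _ (h4 _) (h4 _))
        rw [hv', zero_sub] at h3
        exact (Submodule.neg_mem_iff _).1 h3
    let A : g ≃L[ℝ] g := (LinearEquiv.ofInjectiveEndo (L : g →ₗ[ℝ] g)
      hLinj).toContinuousLinearEquiv
    have hA : (A : g →L[ℝ] g) = L := ContinuousLinearMap.ext fun w => rfl
    exact ⟨A, by rw [hA]; exact hst⟩
  refine ⟨?_, ?_⟩
  · rw [Carnot.pt, map_zero, NormedSpace.exp_zero]
    rfl
  · let e : g ≃ g := Equiv.ofBijective Φ ⟨hinj, hsurj⟩
    have he1 : ∀ x, e.symm (Φ x) = x := fun x => e.symm_apply_apply x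
    have he2 : ∀ b, Φ (e.symm b) = b := fun b => e.apply_symm_apply b
    refine ⟨e.symm, he1, he2, fun b => ?_⟩
    obtain ⟨A, hA⟩ := hder (e.symm b)
    refine ⟨A.symm, ?_⟩
    have h1 := hA.to_localInverse
    rw [he2] at h1
    refine h1.hasFDerivAt.congr_of_eventuallyEq ?_
    have h2 := hA.eventually_right_inverse
    rw [he2] at h2
    filter_upwards [h2] with y hy
    have h3 := congrArg e.symm hy
    rw [he1] at h3
    exact h3.symm

end

end Pool.Agent.CutLoci.H70
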